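import Pool.Agent.V11304.TB.Fin

set_option autoImplicit false

namespace Pool.Agent.Results.MP_20e244_nt.Full

open Finset

/-- `T n b c` is the coefficient of `x^n` in `(x^2 + b x + c)^n`. -/
noncomputable def T (n : ℕ) (b c : ℤ) : ℤ :=
  ((Polynomial.X ^ 2 + Polynomial.C b * Polynomial.X + Polynomial.C c : Polynomial ℤ) ^ n).coeff n

/-- The Catalan number `C_j = C(2j,j)/(j+1)`, as a rational number. -/
def Cat (j : ℕ) : ℚ := ((2 * j).choose j : ℚ) / ((j : ℚ) + 1)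

/-- `(p/3)`: `1` if `p ≡ 1 (mod 3)`, `-1` if `p ≡ 2 (mod 3)`, `0` if `3 ∣ p`. -/
def chi3 (p : ℕ) : ℤ := if p % 3 = 1 then 1 else if p % 3 = 2 then -1 else 0

/-- Congruence of rational numbers modulo `p^2`: the difference lies in `p^2 ℤ_(p)`, i.e. it is
`p^2` times a rational number whose denominator is not divisible by `p`. -/
def Cong (p : ℕ) (x y : ℚ) : Prop := ∃ z : ℚ, ¬ p ∣ z.den ∧ x - y = (p : ℚ) ^ 2 * z

/-- For every prime `p > 3` the five congruences modulo `p^2` all hold. -/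
theorem result (p : ℕ) [Fact p.Prime] (h3 : 3 < p) :
    Cong p (∑ j ∈ range p, (T j 1 1 : ℚ) * ((2 * j).choose j : ℚ) / 12 ^ j)
      ((3 + 3 ^ (p - 1)) / 4 * (chi3 p : ℚ)) ∧
    Cong p (∑ j ∈ range ((p - 1) / 2 + 1), (T (2 * j) 4 1 : ℚ) * ((2 * j).choose j : ℚ) / 16 ^ j)
      1 ∧
    Cong p (∑ j ∈ range ((p - 1) / 2 + 1), (T (2 * j) 4 1 : ℚ) * Cat j / 16 ^ j)
      (4 / 3 * ((legendreSym p 3 : ℚ) - (p : ℚ) * (legendreSym p (-1) : ℚ))) ∧
    Cong p (∑ j ∈ range ((p - 1) / 2 + 1), (T (2 * j) 3 4 : ℚ) * ((2 * j).choose j : ℚ) / 4 ^ j)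
      ((7 - 3 ^ p) / 4 * (legendreSym p (-1) : ℚ)) ∧
    Cong p (∑ j ∈ range ((p - 1) / 2 + 1), (T (2 * j) 8 9 : ℚ) * ((2 * j).choose j : ℚ) / 16 ^ j)
      (legendreSym p 3 : ℚ) := by
  have hodd : p % 2 = 1 := by
    rcases (Fact.out : p.Prime).eq_two_or_odd with h | h
    · omega
    · exact h
  obtain ⟨n, hn⟩ : ∃ n, 2 * n + 1 = p := ⟨p / 2, by omega⟩
  have h2 : 2 ≤ n := by omega
  have e0 : (p - 1) / 2 = n := by omega
  have l1 := Pool.Agent.V11304.TB.leg_m1 hn h2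
  have l3 := Pool.Agent.V11304.TB.leg_3 hn h2
  have hm3 := Pool.Agent.V11304.TB.mod3 hn h2
  have hchi : (chi3 p : ℚ) = Pool.Agent.V11304.TB.eps3 n := by
    unfold chi3 Pool.Agent.V11304.TB.eps3
    rcases (show n % 3 = 0 ∨ n % 3 = 2 by omega) with h | h
    · rw [if_pos (show p % 3 = 1 by omega), if_pos h]; norm_num
    · rw [if_neg (show ¬ p % 3 = 1 by omega), if_pos (show p % 3 = 2 by omega),
        if_neg (by omega)]; norm_num
  have key : ∀ x y : ℚ, x - y ∈ Pool.Agent.V11304.SC.J p 2 → Cong p x y := by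
    rintro x y ⟨z, hz, h⟩
    exact ⟨z, hz, h⟩
  rw [e0, l1, l3, hchi]
  refine ⟨?_, ?_, ?_, ?_, ?_⟩
  · apply key
    have h := Pool.Agent.V11304.TB.X_one hn h2
    rw [← Pool.Agent.V11304.TB.sum1, hn] at h
    have e9 : (3:ℚ) ^ (p - 1) = 9 ^ n := by
      rw [show p - 1 = 2 * n by omega, pow_mul]; norm_num
    rw [e9]
    exact h
  · apply key
    have h := Pool.Agent.V11304.TB.S_one hn h2
    have hs := Pool.Agent.V11304.TB.sum2 n 1
    norm_num at hs
    rw [← hs] at h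
    exact h
  · apply key
    have h := Pool.Agent.V11304.TB.Q_cong hn h2
    rw [← Pool.Agent.V11304.TB.sum3] at h
    exact h
  · apply key
    have h := Pool.Agent.V11304.TB.S_m4 hn h2
    rw [← Pool.Agent.V11304.TB.sum4] at h
    have e9 : (3:ℚ) ^ p = 3 * 9 ^ n := by
      rw [← hn, pow_succ, pow_mul]; norm_num; ring
    rw [e9]
    exact h
  · apply key
    have h := Pool.Agent.V11304.TB.S_three hn h2
    have hs := Pool.Agent.V11304.TB.sum2 n 3
    norm_num at hs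
    rw [← hs] at h
    exact h

end Pool.Agent.Results.MP_20e244_nt.Full
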